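import Mathlib
import Pool.Agent.KPX.Closed
import Pool.Agent.TPH.Low

/-!
# Non-simplex facets of 4-polytopes whose vertices lie on `k` parallel hyperplanes

The exact order for every fixed `k ≥ 3` is `n ^ (3/2)`.
-/

namespace Pool.Agent.Results.MP_502e5d_co.ParallelLayers

/-- The space `ℝ⁴`. -/
abbrev E4 : Type := EuclideanSpace ℝ (Fin 4)

/-- A 4-polytope: the convex hull of a finite set of points affinely spanning `ℝ⁴`. -/
def IsFourPolytope (P : Set E4) : Prop :=
  ∃ S : Set E4, S.Finite ∧ affineSpan ℝ S = ⊤ ∧ P = convexHull ℝ S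

/-- The vertices of a polytope (its extreme points). -/
def vertices (P : Set E4) : Set E4 := P.extremePoints ℝ

/-- A facet of `P`: an exposed face of dimension 3. -/
def IsFacet (P F : Set E4) : Prop :=
  IsExposed ℝ P F ∧ Module.finrank ℝ (vectorSpan ℝ F) = 3

/-- The facets which are not simplices (the number of vertices is not 4). -/
def nonSimplexFacets (P : Set E4) : Set (Set E4) := {F | IsFacet P F ∧ (vertices F).encard ≠ 4}

/-- The union of the `k` parallel hyperplanes `l = t 0`, ..., `l = t (k - 1)`. -/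
def layers {k : ℕ} (l : E4 →ₗ[ℝ] ℝ) (t : Fin k → ℝ) : Set E4 := {v | ∃ i, l v = t i}

/-- The bound when all vertices are on the hyperplanes. -/
theorem upper' : ∃ K : ℝ, 0 < K ∧ ∀ (k : ℕ) (P : Set E4) (l : E4 →ₗ[ℝ] ℝ) (t : Fin k → ℝ)
    (n : ℕ), IsFourPolytope P → l ≠ 0 → vertices P ⊆ layers l t → (vertices P).encard = n →
    ∃ N : ℕ, (nonSimplexFacets P).encard = N ∧
      (N : ℝ) ≤ K * (k : ℝ) ^ (3 / 2 : ℝ) * (n : ℝ) ^ (3 / 2 : ℝ) := by
  classical
  obtain ⟨K, hK0, hK⟩ := KPX.bound'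
  refine ⟨K, hK0, ?_⟩
  rintro k P l t n ⟨S, hS, hspan, hP⟩ hl ht hn
  have hdim : Module.finrank ℝ E4 = 4 := by simp
  obtain ⟨N, hN, hle⟩ := hK hdim S P hS hspan hP l hl (Finset.univ.image t) (by
    intro v hv
    obtain ⟨i, hi⟩ := ht hv
    rw [hi]
    exact Finset.mem_image_of_mem _ (Finset.mem_univ _)) n hn
  refine ⟨N, ?_, hle.trans ?_⟩
  · rw [← hN]
    congr 1
    ext F
    simp only [nonSimplexFacets, IsFacet, vertices, Set.mem_ofPred_eq]
    tauto
  · have h1 : (Finset.univ.image t).card ≤ k :=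
      Finset.card_image_le.trans (by simp)
    have h2 : ((Finset.univ.image t).card : ℝ) ≤ k := by exact_mod_cast h1
    have h3 : ((Finset.univ.image t).card : ℝ) ^ (3 / 2 : ℝ) ≤ (k : ℝ) ^ (3 / 2 : ℝ) :=
      Real.rpow_le_rpow (Nat.cast_nonneg _) h2 (by norm_num)
    have h4 : (0 : ℝ) ≤ (n : ℝ) ^ (3 / 2 : ℝ) := Real.rpow_nonneg (Nat.cast_nonneg n) _
    exact mul_le_mul_of_nonneg_right (mul_le_mul_of_nonneg_left h3 hK0.le) h4

theorem vertices_finite {P : Set E4} (hP : IsFourPolytope P) : (vertices P).Finite := by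
  obtain ⟨S, hS, -, rfl⟩ := hP
  exact hS.subset extremePoints_convexHull_subset

/-- A facet is the convex hull of its vertices, and these are vertices of the polytope. -/
theorem facet_hull {P F : Set E4} (hP : IsFourPolytope P) (hF : IsFacet P F) :
    convexHull ℝ (vertices F) = F ∧ vertices F ⊆ vertices P ∧ F.Nonempty := by
  have hfin := vertices_finite hP
  obtain ⟨S, hS, -, hPS⟩ := hP
  have hPc : IsCompact P := by rw [hPS]; exact hS.isCompact_convexHull ℝ
  have hPconv : Convex ℝ P := by rw [hPS]; exact convex_convexHull _ _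
  have hext : vertices F = F ∩ vertices P := hF.1.isExtreme.extremePoints_eq
  refine ⟨?_, by rw [hext]; exact Set.inter_subset_right, ?_⟩
  · exact Pool.Agent.Lib_helper82.Facets4.convexHull_extremePoints_of_finite
      (hF.1.isCompact hPc) (hF.1.convex hPconv)
      (by rw [show F.extremePoints ℝ = F ∩ vertices P from hext]
          exact hfin.subset Set.inter_subset_right)
  · by_contra hcon
    rw [Set.not_nonempty_iff_eq_empty] at hcon
    have h3 := hF.2
    rw [hcon, vectorSpan_empty, finrank_bot] at h3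
    omega

/-- The non-simplex facets with all vertices in a set `U`. -/
def facetsIn (P U : Set E4) : Set (Set E4) := {F | F ∈ nonSimplexFacets P ∧ vertices F ⊆ U}

/-- Facets with vertices in `U` are facets of the hull of the vertices in `U`. -/
theorem facetsIn_subset {P U : Set E4} (hP : IsFourPolytope P) :
    facetsIn P U ⊆ nonSimplexFacets (convexHull ℝ (vertices P ∩ U)) := by
  rintro F ⟨⟨hF, h4⟩, hU⟩
  obtain ⟨h1, h2, -⟩ := facet_hull hP hF
  obtain ⟨S, hS, -, hPS⟩ := hP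
  have hPconv : Convex ℝ P := by rw [hPS]; exact convex_convexHull _ _
  refine ⟨⟨hF.1.mono ?_ ?_, hF.2⟩, h4⟩
  · exact convexHull_min (fun v hv => extremePoints_subset hv.1) hPconv
  · rw [← h1]
    exact convexHull_mono (fun v hv => ⟨h2 hv, hU hv⟩)

/-- If the vertices in `U` do not span, there is at most one such facet. -/
theorem facetsIn_le_one {P U : Set E4} (hP : IsFourPolytope P)
    (hspan : affineSpan ℝ (vertices P ∩ U) ≠ ⊤) : (facetsIn P U).encard ≤ 1 := by
  rw [Set.encard_le_one_iff]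
  -- one inclusion
  have key : ∀ F F' : Set E4, F ∈ facetsIn P U → F' ∈ facetsIn P U → F' ⊆ F := by
    rintro F F' ⟨⟨hF, h4⟩, hU⟩ ⟨⟨hF', h4'⟩, hU'⟩
    obtain ⟨h1, h2, hne⟩ := facet_hull hP hF
    obtain ⟨h1', h2', hne'⟩ := facet_hull hP hF'
    have hsub : affineSpan ℝ F ≤ affineSpan ℝ (vertices P ∩ U) := by
      rw [← h1, affineSpan_convexHull]
      exact affineSpan_mono ℝ (fun v hv => ⟨h2 hv, hU hv⟩)
    have hsub' : affineSpan ℝ F' ≤ affineSpan ℝ (vertices P ∩ U) := by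
      rw [← h1', affineSpan_convexHull]
      exact affineSpan_mono ℝ (fun v hv => ⟨h2' hv, hU' hv⟩)
    -- the spans agree
    have heq : affineSpan ℝ F = affineSpan ℝ (vertices P ∩ U) := by
      obtain ⟨x, hx⟩ := hne
      have hxF : x ∈ affineSpan ℝ F := subset_affineSpan ℝ F hx
      refine AffineSubspace.eq_of_direction_eq_of_nonempty_of_le ?_ ⟨x, hxF⟩ hsub
      apply Submodule.eq_of_le_of_finrank_le (AffineSubspace.direction_le hsub)
      rw [direction_affineSpan, direction_affineSpan, hF.2]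
      by_contra hcon
      push Not at hcon
      have h5 : Module.finrank ℝ E4 = 4 := by simp
      have h6 : vectorSpan ℝ (vertices P ∩ U) = ⊤ := by
        apply Submodule.eq_top_of_finrank_eq
        have h7 := Submodule.finrank_le (vectorSpan ℝ (vertices P ∩ U))
        omega
      apply hspan
      rw [AffineSubspace.affineSpan_eq_top_iff_vectorSpan_eq_top_of_nonempty ℝ E4 E4]
      · exact h6
      · have := hsub hxF
        rw [← affineSpan_nonempty (k := ℝ)]
        exact ⟨x, this⟩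
    obtain ⟨g, hg⟩ := hF.1 hne
    obtain ⟨x, hx⟩ := hne
    have hconst : ∀ y ∈ F, g y = g x := by
      intro y hy
      have a1 : x ∈ P ∧ ∀ w ∈ P, g w ≤ g x := by rw [hg] at hx; exact hx
      have a2 : y ∈ P ∧ ∀ w ∈ P, g w ≤ g y := by rw [hg] at hy; exact hy
      exact le_antisymm (a1.2 y a2.1) (a2.2 x a1.1)
    have hspanc : ∀ y ∈ affineSpan ℝ F, g y = g x := by
      intro y hy
      have h8 : y -ᵥ x ∈ vectorSpan ℝ F := by
        rw [← direction_affineSpan]
        exact AffineSubspace.vsub_mem_direction hy (subset_affineSpan ℝ F hx)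
      have h9 : vectorSpan ℝ F ≤ LinearMap.ker (g : E4 →ₗ[ℝ] ℝ) := by
        rw [vectorSpan_def, Submodule.span_le]
        rintro _ ⟨z, hz, w, hw, rfl⟩
        show g (z - w) = 0
        rw [map_sub, hconst z hz, hconst w hw, sub_self]
      have h10 : g (y - x) = 0 := h9 h8
      rw [map_sub] at h10
      linarith
    intro y hy
    have hyspan : y ∈ affineSpan ℝ F := by
      rw [heq]
      exact hsub' (subset_affineSpan ℝ F' hy)
    have hgy := hspanc y hyspan
    have a1 : x ∈ P ∧ ∀ w ∈ P, g w ≤ g x := by rw [hg] at hx; exact hx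
    rw [hg]
    refine ⟨hF'.1.subset hy, fun w hw => ?_⟩
    rw [hgy]
    exact a1.2 w hw
  intro F F' hF hF'
  exact Set.Subset.antisymm (key F' F hF' hF) (key F F' hF hF')

/-- The bound for the facets with all vertices on the hyperplanes. -/
theorem upper : ∃ K : ℝ, 0 < K ∧ ∀ (k : ℕ) (P : Set E4) (l : E4 →ₗ[ℝ] ℝ) (t : Fin k → ℝ)
    (m : ℕ), IsFourPolytope P → l ≠ 0 → (vertices P ∩ layers l t).encard = m →
    ∃ N : ℕ, (facetsIn P (layers l t)).encard = N ∧
      (N : ℝ) ≤ K * (k : ℝ) ^ (3 / 2 : ℝ) * (m : ℝ) ^ (3 / 2 : ℝ) := by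
  obtain ⟨K, hK0, hK⟩ := upper'
  refine ⟨K + 1, by linarith, ?_⟩
  intro k P l t m hP hl hm
  have hmnn : (0 : ℝ) ≤ (m : ℝ) ^ (3 / 2 : ℝ) := Real.rpow_nonneg (Nat.cast_nonneg m) _
  have hknn : (0 : ℝ) ≤ (k : ℝ) ^ (3 / 2 : ℝ) * (m : ℝ) ^ (3 / 2 : ℝ) := by positivity
  by_cases hspan : affineSpan ℝ (vertices P ∩ layers l t) = ⊤
  · -- a smaller polytope
    have hfin : (vertices P ∩ layers l t).Finite := (vertices_finite hP).subset Set.inter_subset_left
    have hP' : IsFourPolytope (convexHull ℝ (vertices P ∩ layers l t)) := ⟨_, hfin, hspan, rfl⟩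
    have hPconv : Convex ℝ P := by
      obtain ⟨S, hS, -, hPS⟩ := hP
      rw [hPS]; exact convex_convexHull _ _
    have hsub : convexHull ℝ (vertices P ∩ layers l t) ⊆ P :=
      convexHull_min (fun v hv => extremePoints_subset hv.1) hPconv
    have hv : vertices (convexHull ℝ (vertices P ∩ layers l t)) = vertices P ∩ layers l t := by
      apply Set.Subset.antisymm extremePoints_convexHull_subset
      intro v hv
      exact inter_extremePoints_subset_extremePoints_of_subset hsub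
        ⟨subset_convexHull ℝ _ hv, hv.1⟩
    obtain ⟨N', hN', hle⟩ := hK k _ l t m hP' hl (by rw [hv]; exact Set.inter_subset_right)
      (by rw [hv]; exact hm)
    have h1 := Set.encard_le_encard (facetsIn_subset (U := layers l t) hP)
    rw [hN'] at h1
    obtain ⟨N, hN⟩ := ENat.ne_top_iff_exists.1 (ne_top_of_le_ne_top (ENat.natCast_ne_top _) h1)
    refine ⟨N, hN.symm, ?_⟩
    rw [← hN] at h1
    have h2 : (N : ℝ) ≤ N' := by exact_mod_cast h1
    nlinarith
  · have h1 := facetsIn_le_one hP hspan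
    obtain ⟨N, hN⟩ := ENat.ne_top_iff_exists.1
      (ne_top_of_le_ne_top (by simp : (1 : ℕ∞) ≠ ⊤) h1)
    refine ⟨N, hN.symm, ?_⟩
    rw [← hN] at h1
    have h2 : N ≤ 1 := by exact_mod_cast h1
    rcases Nat.eq_zero_or_pos N with h0 | h0
    · rw [h0, Nat.cast_zero]
      positivity
    · -- there is a facet, so there are vertices
      have hne : (facetsIn P (layers l t)).Nonempty := by
        rw [← Set.encard_pos, ← hN]
        exact_mod_cast h0
      obtain ⟨F, ⟨hF, -⟩, hU⟩ := hne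
      obtain ⟨g1, g2, g3⟩ := facet_hull hP hF
      have hvne : (vertices F).Nonempty := by
        rw [← convexHull_nonempty_iff (𝕜 := ℝ), g1]
        exact g3
      obtain ⟨v, hv⟩ := hvne
      have hm1 : 1 ≤ m := by
        have h5 : (1 : ℕ∞) ≤ m := by
          rw [← hm, Set.one_le_encard_iff_nonempty]
          exact ⟨v, g2 hv, hU hv⟩
        exact_mod_cast h5
      obtain ⟨i, -⟩ := hU hv
      have hk1 : 1 ≤ k := by
        have := i.2
        omega
      have h6 : (1 : ℝ) ≤ (m : ℝ) ^ (3 / 2 : ℝ) :=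
        Real.one_le_rpow (by exact_mod_cast hm1) (by norm_num)
      have h8 : (1 : ℝ) ≤ (k : ℝ) ^ (3 / 2 : ℝ) := Real.one_le_rpow (by exact_mod_cast hk1) (by norm_num)
      have h9 : (1 : ℝ) ≤ (k : ℝ) ^ (3 / 2 : ℝ) * (m : ℝ) ^ (3 / 2 : ℝ) :=
        one_le_mul_of_one_le_of_one_le h8 h6
      have h7 : (N : ℝ) ≤ 1 := by exact_mod_cast h2
      nlinarith

open SharpPlane TPH.Low

/-- The facet of the example with the index `z`. -/
noncomputable def fac (q m l : ℕ) (z : ℕ × ℕ × ℕ) : Set E4 :=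
  {x | x ∈ convexHull ℝ (VV q m l : Set E4) ∧ ff q z x = 1}

theorem fac_vertices {q m l : ℕ} (hq : 2 ≤ q) (hm : q * q < m) (hl : q * q < l) {z : ℕ × ℕ × ℕ}
    (hs : z.1 < q) (ht : z.2.1 < q) (hi : z.2.2 < q) :
    vertices (fac q m l z) = (F5 q z : Set E4) := by
  classical
  have hq0 : 0 < q := by omega
  have h1 : fac q m l z = convexHull ℝ (((VV q m l).filter (fun v => ff q z v = 1) : Finset E4) :
      Set E4) := face (ff_le hq0 m l hi)
  rw [h1, ff_filter hq0 hm hl hs ht hi]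
  refine ext_eq ((expd hq m l).mono ?_)
  rw [← ff_filter hq0 hm hl hs ht hi]
  exact Finset.filter_subset _ _

theorem fac_mem {q m l : ℕ} (hq : 2 ≤ q) (hm : q * q < m) (hl : q * q < l) {z : ℕ × ℕ × ℕ}
    (hs : z.1 < q) (ht : z.2.1 < q) (hi : z.2.2 < q) :
    fac q m l z ∈ nonSimplexFacets (convexHull ℝ (VV q m l : Set E4)) := by
  classical
  have hq0 : 0 < q := by omega
  have hdim : Module.finrank ℝ E4 = 4 := by simp
  have hle := ff_le hq0 m l hi
  have hfil := ff_filter hq0 hm hl hs ht hi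
  have hv0 : pc (z.1, z.2.1) ∈ (VV q m l).filter (fun v => ff q z v = 1) := by
    rw [hfil]
    simp [F5]
  rw [Finset.mem_filter] at hv0
  refine ⟨⟨exposed hle hv0.1 hv0.2, ?_⟩, ?_⟩
  · apply finrank_face hdim (f := ff q z)
    · intro v hv
      exact hv.2
    · rw [eq_top_iff, ← F5_span hq0 z]
      apply Submodule.span_mono
      have h1 : fac q m l z = convexHull ℝ (((VV q m l).filter (fun v => ff q z v = 1) :
          Finset E4) : Set E4) := face hle
      rw [h1, hfil]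
      exact subset_convexHull ℝ _
  · rw [fac_vertices hq hm hl hs ht hi, Set.encard_coe_eq_coe_finsetCard, F5_card hq0]
    decide

theorem fac_inj {q m l : ℕ} (hq : 2 ≤ q) (hm : q * q < m) (hl : q * q < l) {z z' : ℕ × ℕ × ℕ}
    (hs : z.1 < q) (ht : z.2.1 < q) (hi : z.2.2 < q) (hs' : z'.1 < q) (ht' : z'.2.1 < q)
    (hi' : z'.2.2 < q) (he : fac q m l z = fac q m l z') : z = z' := by
  have h1 := fac_vertices hq hm hl hs ht hi
  rw [he, fac_vertices hq hm hl hs' ht' hi'] at h1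
  exact F5_inj (by omega) (Finset.coe_injective h1).symm

/-- The example: `m`, `q * q`, `l` vertices in the three layers and at least `q ^ 3` facets which
are not simplices. -/
theorem example_poly {q m l : ℕ} (hq : 2 ≤ q) (hm : q * q < m) (hl : q * q < l) :
    IsFourPolytope (convexHull ℝ (VV q m l : Set E4)) ∧
      (((EuclideanSpace.proj (3 : Fin 4) : E4 →L[ℝ] ℝ) : E4 →ₗ[ℝ] ℝ) ≠ 0 ∧
        vertices (convexHull ℝ (VV q m l : Set E4)) ⊆
          layers ((EuclideanSpace.proj (3 : Fin 4) : E4 →L[ℝ] ℝ) : E4 →ₗ[ℝ] ℝ) ![0, 1 / 2, 1]) ∧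
      (vertices (convexHull ℝ (VV q m l : Set E4))).encard = (m + (l + q * q) : ℕ) ∧
      ∀ N : ℕ, (nonSimplexFacets (convexHull ℝ (VV q m l : Set E4))).encard = N →
        q * (q * q) ≤ N := by
  classical
  have hq0 : 0 < q := by omega
  have hdim : Module.finrank ℝ E4 = 4 := by simp
  have hv : vertices (convexHull ℝ (VV q m l : Set E4)) = (VV q m l : Set E4) :=
    ext_eq (expd hq m l)
  refine ⟨⟨VV q m l, (VV q m l).finite_toSet, ?_, rfl⟩, ⟨?_, ?_⟩, ?_, ?_⟩
  · have hfil := ff_filter (z := (0, 0, 0)) hq0 hm hl hq0 hq0 hq0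
    refine span_top hdim (f := ff q (0, 0, 0)) (v₁ := pa q 2) ?_ ?_ ?_
    · rw [hfil]
      exact F5_span hq0 _
    · refine mem_VV.2 (Or.inl ⟨2, ?_, rfl⟩)
      nlinarith
    · intro h1
      have h2 : pa q 2 ∈ (VV q m l).filter (fun v => ff q (0, 0, 0) v = 1) := by
        rw [Finset.mem_filter]
        refine ⟨mem_VV.2 (Or.inl ⟨2, ?_, rfl⟩), h1⟩
        nlinarith
      rw [hfil] at h2
      simp only [F5, Finset.mem_insert, Finset.mem_singleton] at h2
      rcases h2 with h | h | h | h | h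
      · have := pa_inj hq0 h
        omega
      · have := pa_inj hq0 h
        omega
      · exact pa_ne_pb _ _ _ h
      · exact pa_ne_pb _ _ _ h
      · exact pa_ne_pc _ _ _ h
  · intro h0
    have h1 := LinearMap.congr_fun h0 (mk 0 0 0 1)
    simp [mk] at h1
  · intro v hv'
    rw [hv, Finset.mem_coe, mem_VV] at hv'
    rcases hv' with ⟨k, _, rfl⟩ | ⟨k, _, rfl⟩ | ⟨s, t, _, _, rfl⟩
    · exact ⟨0, by simp [pa, mk]⟩
    · exact ⟨2, by simp [pb, mk]⟩
    · exact ⟨1, by simp [pc, mk]⟩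
  · rw [hv, Set.encard_coe_eq_coe_finsetCard, card_VV hq0]
  · intro N hN
    have h1 : ((((Finset.range q ×ˢ Finset.range q ×ˢ Finset.range q).image
        (fac q m l)) : Finset (Set E4)) : Set (Set E4)) ⊆
        nonSimplexFacets (convexHull ℝ (VV q m l : Set E4)) := by
      intro F hF
      rw [Finset.mem_coe, Finset.mem_image] at hF
      obtain ⟨z, hz, rfl⟩ := hF
      rw [Finset.mem_product, Finset.mem_product, Finset.mem_range, Finset.mem_range,
        Finset.mem_range] at hz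
      exact fac_mem hq hm hl hz.1 hz.2.1 hz.2.2
    have h2 := Set.encard_le_encard h1
    rw [hN, Set.encard_coe_eq_coe_finsetCard, Finset.card_image_of_injOn, Finset.card_product,
      Finset.card_product, Finset.card_range] at h2
    · exact_mod_cast h2
    · intro z hz z' hz' he
      rw [Finset.mem_coe, Finset.mem_product, Finset.mem_product, Finset.mem_range,
        Finset.mem_range, Finset.mem_range] at hz hz'
      exact fac_inj hq hm hl hz.1 hz.2.1 hz.2.2 hz'.1 hz'.2.1 hz'.2.2 he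

theorem lower (n : ℕ) (hn : 14 ≤ n) :
    ∃ (P : Set E4) (l : E4 →ₗ[ℝ] ℝ) (t : Fin 3 → ℝ), IsFourPolytope P ∧ l ≠ 0 ∧
      vertices P ⊆ layers l t ∧ (vertices P).encard = n ∧
      ∃ N : ℕ, (nonSimplexFacets P).encard = N ∧ (n : ℝ) ^ (3 / 2 : ℝ) / 20 ≤ (N : ℝ) := by
  obtain ⟨q, hq1, hq2⟩ : ∃ q, q * q ≤ (n - 2) / 3 ∧ (n - 2) / 3 < (q + 1) * (q + 1) :=
    ⟨Nat.sqrt ((n - 2) / 3), Nat.sqrt_le _, Nat.lt_succ_sqrt _⟩
  have h4 : 4 ≤ (n - 2) / 3 := by omega
  have hq : 2 ≤ q := by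
    by_contra hlt
    have h1 : q + 1 ≤ 2 := by omega
    have h2 : (q + 1) * (q + 1) ≤ 2 * 2 := Nat.mul_le_mul h1 h1
    omega
  have h3 : 3 * (q * q) + 2 ≤ n := by omega
  have h5 : n ≤ 3 * ((q + 1) * (q + 1)) + 1 := by omega
  obtain ⟨l, hl⟩ : ∃ l, l = n - (q * q + 1) - q * q := ⟨_, rfl⟩
  have hsum : q * q + 1 + (l + q * q) = n := by omega
  obtain ⟨hP, ⟨hl0, hT⟩, hv, hN⟩ := example_poly (q := q) (m := q * q + 1) (l := l) hq (by omega)
    (by omega)
  rw [hsum] at hv
  obtain ⟨K, -, hK⟩ := upper'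
  obtain ⟨N, hNe, -⟩ := hK 3 _ _ _ n hP hl0 hT hv
  refine ⟨_, _, _, hP, hl0, hT, hv, N, hNe, ?_⟩
  have h6 := hN N hNe
  have h7 : ((q * (q * q) : ℕ) : ℝ) ≤ N := by exact_mod_cast h6
  push_cast at h7
  have h8 : (n : ℝ) ≤ 3 * ((q + 1) * (q + 1)) + 1 := by exact_mod_cast h5
  have hq2' : (2 : ℝ) ≤ q := by exact_mod_cast hq
  have h9 : (n : ℝ) ≤ 7 * q ^ 2 := by nlinarith
  have hn0 : (0 : ℝ) ≤ n := Nat.cast_nonneg n
  have h10 : (n : ℝ) ^ (3 / 2 : ℝ) ≤ (7 * (q : ℝ) ^ 2) ^ (3 / 2 : ℝ) :=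
    Real.rpow_le_rpow hn0 h9 (by norm_num)
  have h11 : ((7 * (q : ℝ) ^ 2) ^ (3 / 2 : ℝ)) ^ 2 = (7 * (q : ℝ) ^ 2) ^ 3 := by
    rw [← Real.rpow_natCast, ← Real.rpow_mul (by positivity), ← Real.rpow_natCast]
    norm_num
  have h12 : (7 * (q : ℝ) ^ 2) ^ (3 / 2 : ℝ) ≤ 20 * (q * (q * q)) := by
    apply le_of_sq_le_sq _ (by positivity)
    rw [h11]
    have : (0 : ℝ) ≤ q ^ 6 := by positivity
    nlinarith
  linarith

/-- **Main result.** (1) In a 4-polytope, at most `K k ^ (3/2) m ^ (3/2)` non-simplex facets have all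
their vertices on `k` parallel hyperplanes which contain `m` of the vertices of the polytope. (2) For
every `n ≥ 14` there is a 4-polytope with `n` vertices, all on three parallel hyperplanes, and at
least `n ^ (3/2) / 20` non-simplex facets. -/
theorem result :
    (∃ K : ℝ, 0 < K ∧ ∀ (k : ℕ) (P : Set E4) (l : E4 →ₗ[ℝ] ℝ) (t : Fin k → ℝ) (m : ℕ),
      IsFourPolytope P → l ≠ 0 → (vertices P ∩ layers l t).encard = m →
      ∃ N : ℕ, (facetsIn P (layers l t)).encard = N ∧
        (N : ℝ) ≤ K * (k : ℝ) ^ (3 / 2 : ℝ) * (m : ℝ) ^ (3 / 2 : ℝ)) ∧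
    ∀ n : ℕ, 14 ≤ n →
      ∃ (P : Set E4) (l : E4 →ₗ[ℝ] ℝ) (t : Fin 3 → ℝ), IsFourPolytope P ∧ l ≠ 0 ∧
        vertices P ⊆ layers l t ∧ (vertices P).encard = n ∧
        ∃ N : ℕ, (nonSimplexFacets P).encard = N ∧ (n : ℝ) ^ (3 / 2 : ℝ) / 20 ≤ (N : ℝ) :=
  ⟨upper, lower⟩

end Pool.Agent.Results.MP_502e5d_co.ParallelLayers
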