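import Mathlib
import Pool.Agent.Lib_helper82.PlaneF
import Pool.Agent.Lib_helper55.SharpPlane4

/-!
# Non-simplex facets of 4-polytopes with two vertices in a plane: the exact order

The maximal number of non-simplex facets with at least two vertices in a plane `Q`, for 4-polytopes
with `n` vertices, `m` of which lie in `Q`, has the exact order `n √m`.
-/

namespace Pool.Agent.Results.MP_502e5d_co.PlaneOrder

open Pool.Agent.Lib_helper82.Plane

/-- The space `ℝ⁴`. -/
abbrev E4 : Type := EuclideanSpace ℝ (Fin 4)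

/-- A 4-polytope: the convex hull of a finite set of points affinely spanning `ℝ⁴`. -/
def IsFourPolytope (P : Set E4) : Prop :=
  ∃ S : Set E4, S.Finite ∧ affineSpan ℝ S = ⊤ ∧ P = convexHull ℝ S

/-- The vertices of a polytope (its extreme points). -/
def vertices (P : Set E4) : Set E4 := P.extremePoints ℝ

/-- A facet of `P`: an exposed face of dimension 3. -/
def IsFacet (P F : Set E4) : Prop :=
  IsExposed ℝ P F ∧ Module.finrank ℝ (vectorSpan ℝ F) = 3

/-- The facets which are not simplices (the number of vertices is not 4). -/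
def nonSimplexFacets (P : Set E4) : Set (Set E4) := {F | IsFacet P F ∧ (vertices F).encard ≠ 4}

/-- A plane: a 2-dimensional affine subspace. -/
def IsPlane (Q : AffineSubspace ℝ E4) : Prop := Module.finrank ℝ Q.direction = 2

/-- The non-simplex facets with at least two vertices in one of the sets `Q t`. -/
def facetsMeeting (P : Set E4) {k : ℕ} (Q : Fin k → AffineSubspace ℝ E4) : Set (Set E4) :=
  {F | F ∈ nonSimplexFacets P ∧ ∃ t, 2 ≤ (vertices F ∩ Q t).encard}

theorem upper (P : Set E4) (hP : IsFourPolytope P) (k : ℕ) (Q : Fin k → AffineSubspace ℝ E4)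
    (hQ : ∀ t, IsPlane (Q t)) (n : ℕ) (m : Fin k → ℕ) (hn : (vertices P).encard = n)
    (hm : ∀ t, (vertices P ∩ Q t).encard = m t) :
    ∃ N : ℕ, (facetsMeeting P Q).encard = N ∧ (N : ℝ) ≤ ∑ t, (24 * n * √(m t) + 200 * n) := by
  classical
  obtain ⟨S, hS, hspan, hPS⟩ := hP
  have hdim : Module.finrank ℝ E4 = 4 := by simp
  have h1 : ∀ t, ∃ N : ℕ, {F | F ∈ nonSimplexFacets P ∧ 2 ≤ (vertices F ∩ Q t).encard}.encard = N ∧
      (N : ℝ) ≤ 24 * n * √(m t) + 200 * n := by
    intro t
    obtain ⟨N, hN, hle⟩ := plane_bound hdim hS hspan hPS (Q t) (hQ t) n (m t) hn (hm t)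
    refine ⟨N, ?_, hle⟩
    rw [← hN]
    congr 1
    ext F
    simp only [nonSimplexFacets, IsFacet, vertices, Set.mem_ofPred_eq]
    tauto
  choose N hN hle using h1
  have h2 : facetsMeeting P Q =
      ⋃ t, {F | F ∈ nonSimplexFacets P ∧ 2 ≤ (vertices F ∩ Q t).encard} := by
    ext F
    simp only [facetsMeeting, Set.mem_ofPred_eq, Set.mem_iUnion]
    constructor
    · rintro ⟨hF, t, ht⟩
      exact ⟨t, hF, ht⟩
    · rintro ⟨t, hF, ht⟩
      exact ⟨hF, t, ht⟩
  have h3 : ∀ s : Finset (Fin k),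
      (⋃ t ∈ s, {F | F ∈ nonSimplexFacets P ∧ 2 ≤ (vertices F ∩ Q t).encard}).encard ≤
        ((∑ t ∈ s, N t : ℕ) : ℕ∞) := by
    intro s
    induction s using Finset.induction_on with
    | empty => simp
    | insert a s ha ih =>
      rw [Finset.set_biUnion_insert, Finset.sum_insert ha, Nat.cast_add]
      refine (Set.encard_union_le _ _).trans ?_
      rw [hN a]
      gcongr
  have h4 := h3 Finset.univ
  have h5 : (⋃ t ∈ (Finset.univ : Finset (Fin k)),
      {F | F ∈ nonSimplexFacets P ∧ 2 ≤ (vertices F ∩ Q t).encard}) = facetsMeeting P Q := by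
    rw [h2]
    simp
  rw [h5] at h4
  obtain ⟨N', hN'⟩ := ENat.ne_top_iff_exists.1 (ne_top_of_le_ne_top (ENat.natCast_ne_top _) h4)
  refine ⟨N', hN'.symm, ?_⟩
  rw [← hN'] at h4
  have h6 : N' ≤ ∑ t, N t := by exact_mod_cast h4
  calc (N' : ℝ) ≤ ((∑ t, N t : ℕ) : ℝ) := by exact_mod_cast h6
    _ = ∑ t, (N t : ℝ) := by push_cast; rfl
    _ ≤ _ := Finset.sum_le_sum fun t _ => hle t

open SharpPlane in
/-- The facet of the polytope of `VV` with the functional `ff`. -/
def fac (η : ℝ) (q r m l : ℕ) (z : ℕ × ℕ × ℕ) : Set E4 :=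
  {x | x ∈ convexHull ℝ (VV η q r m l : Set E4) ∧ ff η q z.1 z.2.1 z.2.2 x = 1}

open SharpPlane in
open Classical in
theorem fac_spec {η : ℝ} {q r m l M : ℕ} (h : Ok η q r m l M) {z : ℕ × ℕ × ℕ} (hs : z.1 < q)
    (ht : z.2.1 < r) (hi : z.2.2 < q) :
    vertices (fac η q r m l z) = (((VV η q r m l).filter
      (fun v => ff η q z.1 z.2.1 z.2.2 v = 1) : Finset E4) : Set E4) ∧
    fac η q r m l z ∈ facetsMeeting (convexHull ℝ (VV η q r m l : Set E4))
      (fun _ : Fin 1 => Qs.toAffineSubspace) := by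
  obtain ⟨s, t, i⟩ := z
  dsimp only at hs ht hi
  have hmM := h.hmM
  have hlM := h.hlM
  have hq := h.hq
  have a1 := idx1 h hs hi
  have a2 := idx2 h ht (show q - 1 - i < q by omega)
  have hle := ff_le h hs ht hi
  have hdim : Module.finrank ℝ E4 = 4 := by simp
  have hface : fac η q r m l (s, t, i) = convexHull ℝ (((VV η q r m l).filter
      (fun v => ff η q s t i v = 1) : Finset E4) : Set E4) := face hle
  have hv : vertices (fac η q r m l (s, t, i)) = (((VV η q r m l).filter
      (fun v => ff η q s t i v = 1) : Finset E4) : Set E4) := by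
    rw [hface]
    exact ext_eq ((expd h).mono (Finset.filter_subset _ _))
  have hA : ∀ k, k = s * q + i ∨ k = s * q + i + 1 → pA η q k ∈ ((VV η q r m l).filter
      (fun v => ff η q s t i v = 1) : Finset E4) := by
    intro k hk
    rw [ff_eq h hs ht hi]
    rcases hk with rfl | rfl <;> simp
  refine ⟨hv, ⟨⟨?_, ?_⟩, ?_⟩, 0, ?_⟩
  · have h1 := Finset.mem_filter.1 (hA _ (Or.inl rfl))
    exact exposed hle h1.1 h1.2
  · apply finrank_face hdim (f := ff η q s t i)
    · intro v hv
      exact hv.2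
    · rw [eq_top_iff, ← ff_span h hs ht hi]
      apply Submodule.span_mono
      rw [hface]
      exact subset_convexHull ℝ _
  · rw [hv, Set.encard_coe_eq_coe_finsetCard, ff_card h hs ht hi]
    decide
  · have hne : pA η q (s * q + i) ≠ pA η q (s * q + i + 1) := by
      intro he
      have := W_inj h (by omega) (by omega) (mk_inj he).1
      omega
    have hsub : ({pA η q (s * q + i), pA η q (s * q + i + 1)} : Set E4) ⊆
        vertices (fac η q r m l (s, t, i)) ∩ (Qs.toAffineSubspace : Set E4) := by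
      intro v hv'
      rw [hv]
      rcases hv' with rfl | rfl
      · exact ⟨hA _ (Or.inl rfl), mk_mem.2 rfl⟩
      · exact ⟨hA _ (Or.inr rfl), mk_mem.2 rfl⟩
    have h2 := Set.encard_le_encard hsub
    rw [Set.encard_pair hne] at h2
    exact h2

open SharpPlane in
theorem fac_inj {η : ℝ} {q r m l M : ℕ} (h : Ok η q r m l M) {z z' : ℕ × ℕ × ℕ} (hs : z.1 < q)
    (ht : z.2.1 < r) (hi : z.2.2 < q) (hs' : z'.1 < q) (ht' : z'.2.1 < r) (hi' : z'.2.2 < q)
    (he : fac η q r m l z = fac η q r m l z') : z = z' := by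
  classical
  have h1 := (fac_spec h hs ht hi).1
  rw [he, (fac_spec h hs' ht' hi').1] at h1
  have h2 := Finset.coe_injective h1
  obtain ⟨s, t, i⟩ := z
  obtain ⟨s', t', i'⟩ := z'
  dsimp only at hs ht hi hs' ht' hi' h2
  have hmM := h.hmM
  have hlM := h.hlM
  have a1 := idx1 h hs hi
  have a1' := idx1 h hs' hi'
  rw [ff_eq h hs ht hi, ff_eq h hs' ht' hi'] at h2
  have hC : pC η (s, t) ∈ ({pA η q (s' * q + i'), pA η q (s' * q + i' + 1),
      pB η q (t' * q + (q - 1 - i')), pB η q (t' * q + (q - 1 - i') + 1), pC η (s', t')} :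
      Finset E4) := by
    rw [h2]
    simp
  simp only [Finset.mem_insert, Finset.mem_singleton] at hC
  have hst : s = s' ∧ t = t' := by
    rcases hC with hC | hC | hC | hC | hC
    · exact absurd hC.symm (A_ne_C h _ _)
    · exact absurd hC.symm (A_ne_C h _ _)
    · exact absurd hC.symm (B_ne_C h _ _)
    · exact absurd hC.symm (B_ne_C h _ _)
    · have h3 := mk_inj hC
      exact ⟨X_inj h (h.qM hs) (h.qM hs') h3.1, X_inj h (h.rM ht) (h.rM ht') h3.2⟩
  obtain ⟨rfl, rfl⟩ := hst
  have hA : ∀ k, k = s * q + i ∨ k = s * q + i + 1 → k = s * q + i' ∨ k = s * q + i' + 1 := by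
    intro k hk
    have hA1 : pA η q k ∈ ({pA η q (s * q + i'), pA η q (s * q + i' + 1),
      pB η q (t * q + (q - 1 - i')), pB η q (t * q + (q - 1 - i') + 1), pC η (s, t)} :
      Finset E4) := by
      rw [h2]
      rcases hk with rfl | rfl <;> simp
    simp only [Finset.mem_insert, Finset.mem_singleton] at hA1
    rcases hA1 with hC | hC | hC | hC | hC
    · exact Or.inl (W_inj h (by omega) (by omega) (mk_inj hC).1)
    · exact Or.inr (W_inj h (by omega) (by omega) (mk_inj hC).1)
    · exact absurd hC (A_ne_B h (by omega) _)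
    · exact absurd hC (A_ne_B h (by omega) _)
    · exact absurd hC (A_ne_C h _ _)
  have h3 := hA _ (Or.inl rfl)
  have h4 := hA _ (Or.inr rfl)
  have : i = i' := by omega
  rw [this]

open SharpPlane in
theorem lower (m n : ℕ) (hm : 16 ≤ m) (hn : 2 * m ≤ n) :
    ∃ (P : Set E4) (Q : AffineSubspace ℝ E4), IsFourPolytope P ∧ IsPlane Q ∧
      (vertices P).encard = n ∧ (vertices P ∩ Q).encard = m ∧
      ∃ N : ℕ, (facetsMeeting P (fun _ : Fin 1 => Q)).encard = N ∧ n * √m / 16 ≤ (N : ℝ) := by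
  classical
  obtain ⟨q, hqm, hqm'⟩ : ∃ q, q * q ≤ m - 1 ∧ m - 1 < (q + 1) * (q + 1) :=
    ⟨Nat.sqrt (m - 1), Nat.sqrt_le _, Nat.lt_succ_sqrt _⟩
  have hq3 : 3 ≤ q := by
    by_contra hlt
    have h1 : q + 1 ≤ 3 := by omega
    have h2 : (q + 1) * (q + 1) ≤ 3 * 3 := Nat.mul_le_mul h1 h1
    omega
  obtain ⟨r, hr⟩ : ∃ r, r = (n - m - 1) / (2 * q) := ⟨_, rfl⟩
  have hr1 : 2 * q * r ≤ n - m - 1 := by
    rw [hr]
    exact Nat.mul_div_le _ _
  have hr2 : n - m - 1 < 2 * q * (r + 1) := by
    rw [hr]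
    exact Nat.lt_mul_div_succ _ (by omega)
  have hqr : q * r + q * r ≤ n - m - 1 := by
    have : 2 * q * r = q * r + q * r := by ring
    omega
  obtain ⟨l, hl⟩ : ∃ l, l = n - m - q * r := ⟨_, rfl⟩
  have hn' : n = m + (l + q * r) := by omega
  have hok : Ok (1 / (3 * (n : ℝ) + 1)) q r m l n := by
    refine ⟨by positivity, ?_, by omega, by omega, ?_, by omega, by omega⟩
    · rw [one_div, inv_mul_cancel₀ (by positivity)]
    · rw [mul_comm]
      omega
  have hrpos : 0 < r := by
    by_contra h0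
    have h1 : r = 0 := by omega
    rw [h1] at hr2
    have h2 : q * q ≤ m - 1 := hqm
    have h3 : 3 * q ≤ q * q := Nat.mul_le_mul_right q hq3
    omega
  set S : Finset E4 := VV (1 / (3 * (n : ℝ) + 1)) q r m l with hS
  have hdim : Module.finrank ℝ E4 = 4 := by simp
  have hq0 : 0 < q := by omega
  have hspan : affineSpan ℝ (S : Set E4) = ⊤ := by
    refine span_top hdim (ff_span hok hq0 hrpos hq0)
      (v₁ := pA (1 / (3 * (n : ℝ) + 1)) q 2) ?_ ?_
    · exact mem_VV.2 (Or.inl ⟨2, by omega, rfl⟩)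
    · rw [ff_A]
      exact (dp_W_lt hok.h0 hok.hM hq0 (by omega) (by omega) (by omega)).ne
  have hv : vertices (convexHull ℝ (S : Set E4)) = S := ext_eq (expd hok)
  have hPoly : IsFourPolytope (convexHull ℝ (S : Set E4)) := ⟨S, S.finite_toSet, hspan, rfl⟩
  have hPl : IsPlane (Qs.toAffineSubspace) := by
    unfold IsPlane
    rw [Submodule.toAffineSubspace_direction]
    exact finrank_Qs
  have hnv : (vertices (convexHull ℝ (S : Set E4))).encard = n := by
    rw [hv, Set.encard_coe_eq_coe_finsetCard, hS, card_VV hok, ← hn']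
  have hmv : (vertices (convexHull ℝ (S : Set E4)) ∩ (Qs.toAffineSubspace : Set E4)).encard =
      m := by
    rw [hv]
    exact card_plane hok
  refine ⟨convexHull ℝ (S : Set E4), Qs.toAffineSubspace, hPoly, hPl, hnv, hmv, ?_⟩
  obtain ⟨N, hN, -⟩ := upper _ hPoly 1 (fun _ => Qs.toAffineSubspace) (fun _ => hPl) n
    (fun _ => m) hnv (fun _ => hmv)
  refine ⟨N, hN, ?_⟩
  have hcard : q * r * q ≤ N := by
    have h1 : ((((Finset.range q ×ˢ Finset.range r ×ˢ Finset.range q).image
        (fac (1 / (3 * (n : ℝ) + 1)) q r m l)) : Finset (Set E4)) : Set (Set E4)) ⊆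
        facetsMeeting (convexHull ℝ (S : Set E4)) (fun _ : Fin 1 => Qs.toAffineSubspace) := by
      intro F hF
      rw [Finset.mem_coe, Finset.mem_image] at hF
      obtain ⟨z, hz, rfl⟩ := hF
      rw [Finset.mem_product, Finset.mem_product, Finset.mem_range, Finset.mem_range,
        Finset.mem_range] at hz
      exact (fac_spec hok hz.1 hz.2.1 hz.2.2).2
    have h2 := Set.encard_le_encard h1
    rw [hN, Set.encard_coe_eq_coe_finsetCard, Finset.card_image_of_injOn, Finset.card_product,
      Finset.card_product, Finset.card_range, Finset.card_range] at h2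
    · have h3 : q * (r * q) ≤ N := by exact_mod_cast h2
      rw [mul_assoc]
      exact h3
    · intro z hz z' hz' he
      rw [Finset.mem_coe, Finset.mem_product, Finset.mem_product, Finset.mem_range,
        Finset.mem_range, Finset.mem_range] at hz hz'
      exact fac_inj hok hz.1 hz.2.1 hz.2.2 hz'.1 hz'.2.1 hz'.2.2 he
  have h1 : √(m : ℝ) ≤ q + 1 := by
    rw [Real.sqrt_le_left (by positivity)]
    have : m ≤ (q + 1) * (q + 1) := by omega
    have h2 : (m : ℝ) ≤ (q + 1) * (q + 1) := by exact_mod_cast this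
    rw [sq]
    exact h2
  have h2 : (3 : ℝ) ≤ q := by exact_mod_cast hq3
  have h3 : 6 * q ≤ n := by
    by_contra hlt
    have h4 : n + 1 ≤ 6 * q := by omega
    have h5 : (n + 1) * (n + 1) ≤ 6 * q * (6 * q) := Nat.mul_le_mul h4 h4
    have h6 : 6 * q * (6 * q) = 36 * (q * q) := by ring
    have h7 : 36 * (q * q) ≤ 36 * (m - 1) := Nat.mul_le_mul_left 36 hqm
    have h8 : 32 * n ≤ n * n := Nat.mul_le_mul_right n (by omega)
    have h9 : (n + 1) * (n + 1) = n * n + 2 * n + 1 := by ring
    omega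
  have h4 : n ≤ 12 * (q * r) := by
    have h5 : 2 * q * (r + 1) = 2 * (q * r) + 2 * q := by ring
    omega
  have h5 : (n : ℝ) ≤ 12 * (q * r) := by exact_mod_cast h4
  have h6 : ((q * r * q : ℕ) : ℝ) ≤ N := by exact_mod_cast hcard
  push_cast at h6
  have h7 : √(m : ℝ) ≤ 4 / 3 * q := by linarith
  have h8 : (n : ℝ) * √m ≤ 12 * (q * r) * (4 / 3 * q) := by
    apply mul_le_mul h5 h7 (Real.sqrt_nonneg _) (by positivity)
  linarith

/-- **Main result.** (1) For a 4-polytope with `n` vertices and planes `Q_1, ..., Q_k`, the plane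
`Q_t` containing `m_t` of the vertices, at most `∑_t (24 n √m_t + 200 n)` of the non-simplex facets
have at least two vertices in one of the planes. (2) For all `m ≥ 16`, `n ≥ 2 m` there are a
4-polytope with `n` vertices and a plane containing exactly `m` of them such that at least
`n √m / 16` non-simplex facets have at least two vertices in the plane. -/
theorem result :
    (∀ P : Set E4, IsFourPolytope P → ∀ (k : ℕ) (Q : Fin k → AffineSubspace ℝ E4),
      (∀ t, IsPlane (Q t)) → ∀ (n : ℕ) (m : Fin k → ℕ), (vertices P).encard = n →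
      (∀ t, (vertices P ∩ Q t).encard = m t) →
      ∃ N : ℕ, (facetsMeeting P Q).encard = N ∧ (N : ℝ) ≤ ∑ t, (24 * n * √(m t) + 200 * n)) ∧
    ∀ m n : ℕ, 16 ≤ m → 2 * m ≤ n →
      ∃ (P : Set E4) (Q : AffineSubspace ℝ E4), IsFourPolytope P ∧ IsPlane Q ∧
        (vertices P).encard = n ∧ (vertices P ∩ Q).encard = m ∧
        ∃ N : ℕ, (facetsMeeting P (fun _ : Fin 1 => Q)).encard = N ∧ n * √m / 16 ≤ (N : ℝ) :=
  ⟨upper, lower⟩

end Pool.Agent.Results.MP_502e5d_co.PlaneOrder
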