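import Pool.Agent.F32P.Closed
import Pool.Agent.F32.PS_End2

/-!
# MP_502e5d_co: a 4-polytope with `n` vertices has at most `C n^(2-c)` non-simplex facets
-/

namespace Pool.Agent.Results.MP_502e5d_co.PowerSaving

/-- The space `ℝ⁴`. -/
abbrev E4 : Type := EuclideanSpace ℝ (Fin 4)

/-- A 4-polytope: the convex hull of a finite set of points affinely spanning `ℝ⁴`. -/
def IsFourPolytope (P : Set E4) : Prop :=
  ∃ S : Set E4, S.Finite ∧ affineSpan ℝ S = ⊤ ∧ P = convexHull ℝ S

/-- The vertices of a polytope (its extreme points). -/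
def vertices (P : Set E4) : Set E4 := P.extremePoints ℝ

/-- A facet of `P`: an exposed face of dimension 3. -/
def IsFacet (P F : Set E4) : Prop :=
  IsExposed ℝ P F ∧ Module.finrank ℝ (vectorSpan ℝ F) = 3

/-- The facets which are not simplices (the number of vertices is not 4). -/
def nonSimplexFacets (P : Set E4) : Set (Set E4) := {F | IsFacet P F ∧ (vertices F).encard ≠ 4}

/-- `M(n)`: the largest number of facets which are not simplices, over all 4-polytopes with exactly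
`n` vertices. -/
noncomputable def M (n : ℕ) : ℕ∞ :=
  ⨆ (P : Set E4) (_ : IsFourPolytope P ∧ (vertices P).encard = n), (nonSimplexFacets P).encard

open Pool.Agent.F32 in
/-- **Power saving.** `M(n) ≤ C n^(2-c)` for some `c > 0`: a 4-polytope with `n` vertices has at most
`C n^(2-c)` facets which are not simplices. -/
theorem result : ∃ c C : ℝ, 0 < c ∧ ∀ n : ℕ, 1 ≤ n →
    ∃ N : ℕ, M n = N ∧ (N : ℝ) ≤ C * (n : ℝ) ^ (2 - c) := by
  obtain ⟨c, C, hc, hC, h3⟩ := PS.handB (PS.nonq_powT Pool.Agent.F32P.stmtT)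
  refine ⟨c, C, hc, fun n hn => ?_⟩
  have h0 : 0 ≤ C * (n : ℝ) ^ (2 - c) := mul_nonneg hC.le (Real.rpow_nonneg (Nat.cast_nonneg n) _)
  have h1 : M n ≤ (⌊C * (n : ℝ) ^ (2 - c)⌋₊ : ℕ) := by
    refine iSup_le fun P => iSup_le fun hP => ?_
    obtain ⟨⟨S, hS, hspan, hPS⟩, hcard⟩ := hP
    obtain ⟨N, hN, hle⟩ := h3 n S P hn hS hspan hPS hcard
    have h2 : (nonSimplexFacets P).encard = N := hN
    rw [h2]
    exact_mod_cast Nat.le_floor hle
  obtain ⟨N, hN⟩ := ENat.ne_top_iff_exists.1 (ne_top_of_le_ne_top (ENat.natCast_ne_top _) h1)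
  refine ⟨N, hN.symm, ?_⟩
  rw [← hN] at h1
  have h4 : N ≤ ⌊C * (n : ℝ) ^ (2 - c)⌋₊ := by exact_mod_cast h1
  exact (Nat.le_floor_iff h0).1 h4

end Pool.Agent.Results.MP_502e5d_co.PowerSaving
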